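import Pool.Agent.Helper8.SPV.Stmts
import Pool.Agent.Helper8.SPV.PLib

/-! # Module PL6: the fundamental identity -/

set_option autoImplicit false

namespace Pool.Agent.Helper8.SPV

open IsDedekindDomain

/-- the order at a place is determined by the valuation with the same valuation ring -/
theorem PL6_ord {k K : Type} [Field k] [Field K] [Algebra k K] {p : Pl k K} (h : p.Laws)
    (v : Valuation K (WithZero (Multiplicative ℤ))) (hv : Function.Surjective v)
    (hO : ∀ f : K, f ∈ p.O ↔ v f ≤ 1) (f : K) (hf : f ≠ 0) : p.ord f = -WithZero.log (v f) := by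
  have h1 : ∀ u : K, u ≠ 0 → p.ord u = 0 → v u = 1 := by
    intro u hu h0
    refine le_antisymm ?_ ?_
    · rw [← hO, h.mem_iff u hu, h0]
    · have h2 : v u⁻¹ ≤ 1 := by
        rw [← hO, h.mem_iff _ (inv_ne_zero hu), h.ord_inv, h0, neg_zero]
      rw [map_inv₀] at h2
      exact (inv_le_one₀ (zero_lt_iff.mpr ((Valuation.ne_zero_iff v).mpr hu))).mp h2
  have hz := h.z_ne
  have hvz : v p.z ≠ 0 := (Valuation.ne_zero_iff v).mpr hz
  have h2 : ∀ u : K, u ≠ 0 → WithZero.log (v u) = p.ord u * WithZero.log (v p.z) := by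
    intro u hu
    have h3 : p.ord (u * p.z ^ (-p.ord u)) = 0 := by
      rw [h.ord_mul _ _ hu (zpow_ne_zero _ hz), h.ord_zpow, h.ord_z]
      ring
    have h4 := h1 _ (mul_ne_zero hu (zpow_ne_zero _ hz)) h3
    rw [map_mul, map_zpow₀] at h4
    have h5 := congrArg WithZero.log h4
    rw [WithZero.log_mul ((Valuation.ne_zero_iff v).mpr hu) (zpow_ne_zero _ hvz),
      WithZero.log_zpow, WithZero.log_one, smul_eq_mul] at h5
    linarith
  have h3 : WithZero.log (v p.z) = -1 := by
    obtain ⟨u, hu⟩ := hv (WithZero.exp (-1))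
    have hu0 : u ≠ 0 := by
      rintro rfl
      rw [map_zero] at hu
      exact WithZero.exp_ne_zero hu.symm
    have h4 := h2 u hu0
    rw [hu, WithZero.log_exp] at h4
    have h5 : v p.z ≤ 1 := by
      rw [← hO, h.mem_iff _ hz, h.ord_z]
      norm_num
    have h6 : WithZero.log (v p.z) ≤ 0 := by
      rw [← WithZero.log_one, WithZero.log_le_log hvz one_ne_zero]
      exact h5
    have h7 : WithZero.log (v p.z) ∣ 1 := ⟨-p.ord u, by linarith⟩
    rcases Int.isUnit_iff.mp (isUnit_of_dvd_one h7) with h8 | h8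
    · omega
    · exact h8
  rw [h2 f hf, h3]
  ring

/-- the valuation ring of a place is a discrete valuation ring -/
theorem PL6_dvr {k K : Type} [Field k] [Field K] [Algebra k K] {p : Pl k K} (h : p.Laws) :
    IsDiscreteValuationRing p.O := by
  apply IsDiscreteValuationRing.ofHasUnitMulPowIrreducibleFactorization
  have hz : p.z ∈ p.O := by
    rw [h.mem_iff _ h.z_ne, h.ord_z]
    norm_num
  have hunit : ∀ x : p.O, x ≠ 0 → (IsUnit x ↔ p.ord (x : K) = 0) := by
    intro x hx
    have hx0 : (x : K) ≠ 0 := fun h0 => hx (Subtype.ext h0)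
    constructor
    · intro hu
      obtain ⟨y, hy⟩ := isUnit_iff_exists_inv.mp hu
      have hy' : (x : K) * (y : K) = 1 := congrArg Subtype.val hy
      have hy0 : (y : K) ≠ 0 := right_ne_zero_of_mul_eq_one hy'
      have h1 := h.ord_mul _ _ hx0 hy0
      rw [hy', h.ord_one] at h1
      have h2 := (h.mem_iff _ hx0).mp x.2
      have h3 := (h.mem_iff _ hy0).mp y.2
      omega
    · intro h0
      have h1 : (x : K)⁻¹ ∈ p.O := by
        rw [h.mem_iff _ (inv_ne_zero hx0), h.ord_inv, h0, neg_zero]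
      exact isUnit_iff_exists_inv.mpr ⟨⟨_, h1⟩, Subtype.ext (mul_inv_cancel₀ hx0)⟩
  have hz0 : (⟨p.z, hz⟩ : p.O) ≠ 0 := fun h0 => h.z_ne (congrArg Subtype.val h0)
  refine ⟨⟨p.z, hz⟩, ⟨?_, ?_⟩, ?_⟩
  · rw [hunit _ hz0]
    change ¬ p.ord p.z = 0
    rw [h.ord_z]
    norm_num
  · intro a b hab
    have ha : a ≠ 0 := by
      rintro rfl
      rw [zero_mul] at hab
      exact hz0 hab
    have hb : b ≠ 0 := by
      rintro rfl
      rw [mul_zero] at hab
      exact hz0 hab
    have ha0 : (a : K) ≠ 0 := fun h0 => ha (Subtype.ext h0)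
    have hb0 : (b : K) ≠ 0 := fun h0 => hb (Subtype.ext h0)
    have h1 : p.z = (a : K) * (b : K) := congrArg Subtype.val hab
    have h2 := h.ord_mul _ _ ha0 hb0
    rw [← h1, h.ord_z] at h2
    have h3 := (h.mem_iff _ ha0).mp a.2
    have h4 := (h.mem_iff _ hb0).mp b.2
    rw [hunit a ha, hunit b hb]
    omega
  · intro x hx
    have hx0 : (x : K) ≠ 0 := fun h0 => hx (Subtype.ext h0)
    have h3 := (h.mem_iff _ hx0).mp x.2
    obtain ⟨n, hn⟩ := Int.eq_ofNat_of_zero_le h3
    have h4 : p.ord ((x : K) * p.z ^ (-(n : ℤ))) = 0 := by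
      rw [h.ord_mul _ _ hx0 (zpow_ne_zero _ h.z_ne), h.ord_zpow, h.ord_z, hn]
      ring
    have h5 : (x : K) * p.z ^ (-(n : ℤ)) ≠ 0 := mul_ne_zero hx0 (zpow_ne_zero _ h.z_ne)
    have h6 : (x : K) * p.z ^ (-(n : ℤ)) ∈ p.O := by
      rw [h.mem_iff _ h5, h4]
    have h7 : IsUnit (⟨_, h6⟩ : p.O) := by
      rw [hunit _ (fun h0 => h5 (congrArg Subtype.val h0))]
      exact h4
    refine ⟨n, ?_⟩
    refine ⟨h7.unit, Subtype.ext ?_⟩
    change p.z ^ n * ((x : K) * p.z ^ (-(n : ℤ))) = x
    rw [zpow_neg, zpow_natCast, mul_comm, mul_assoc, inv_mul_cancel₀ (pow_ne_zero _ h.z_ne),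
      mul_one]


theorem PL6_int {K : Type} [Field K] {R : Type} [CommRing R] [Algebra R K] (V : ValuationSubring K)
    (hV : ∀ r : R, algebraMap R K r ∈ V) {u : K} (hu : IsIntegral R u) : u ∈ V := by
  obtain ⟨p, hp, hpu⟩ := hu
  let g : R →+* V := (algebraMap R K).codRestrict V hV
  have h1 : IsIntegral V u := by
    refine ⟨p.map g, hp.map g, ?_⟩
    rw [Polynomial.eval₂_map]
    exact hpu
  obtain ⟨v, hv⟩ := IsIntegrallyClosed.isIntegral_iff.mp h1
  rw [← hv]
  exact v.2

section core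

theorem PL6_inertia {A B : Type} [CommRing A] [CommRing B] [Algebra A B] (m : Ideal A)
    [m.IsMaximal] (P : Ideal B) [P.IsPrime] [P.LiesOver m]
    (hs : ∀ b : B, ∃ a : A, b - algebraMap A B a ∈ P) : m.inertiaDeg' P = 1 := by
  rw [Ideal.inertiaDeg'_algebraMap]
  have hsurj : Function.Surjective (algebraMap (A ⧸ m) (B ⧸ P)) := by
    intro x
    obtain ⟨b, rfl⟩ := Ideal.Quotient.mk_surjective x
    obtain ⟨a, ha⟩ := hs b
    refine ⟨Ideal.Quotient.mk m a, ?_⟩
    rw [Ideal.Quotient.algebraMap_mk_of_liesOver]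
    exact (Ideal.Quotient.eq.mpr ha).symm
  have hinj : Function.Injective (algebraMap (A ⧸ m) (B ⧸ P)) :=
    FaithfulSMul.algebraMap_injective (A ⧸ m) (B ⧸ P)
  have h1 := (LinearEquiv.ofBijective (Algebra.linearMap (A ⧸ m) (B ⧸ P))
    ⟨hinj, hsurj⟩).finrank_eq
  rw [← h1, Module.finrank_self]

theorem PL6_ring {k K B : Type} [Field k] [Field K] [Algebra k K] [CommRing B]
    [IsDedekindDomain B] [Algebra B K] [IsFractionRing B K] {p : Pl k K} (h : p.Laws)
    (hB : ∀ b : B, algebraMap B K b ∈ p.O)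
    (v : HeightOneSpectrum B) (hP : ∀ b, b ∈ v.asIdeal ↔ p.Ge 1 (algebraMap B K b)) (f : K) :
    f ∈ p.O ↔ v.valuation K f ≤ 1 := by
  by_cases hf : f = 0
  · rw [hf, map_zero]
    exact ⟨fun _ => zero_le, fun _ => p.O.zero_mem⟩
  have hd0 : ∀ d : B, d ∉ v.asIdeal →
      algebraMap B K d ≠ 0 ∧ p.ord (algebraMap B K d) = 0 := by
    intro d hd
    have h1 : algebraMap B K d ≠ 0 := by
      intro h0
      apply hd
      rw [hP, h0]
      exact h.ge_zero 1
    refine ⟨h1, ?_⟩
    rw [hP, h.ge_iff _ _ h1] at hd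
    have := (h.mem_iff _ h1).mp (hB d)
    omega
  constructor
  · intro hfO
    by_contra hlt
    rw [not_le] at hlt
    have h1 : v.valuation K f⁻¹ < 1 := by
      rw [map_inv₀]
      exact inv_lt_one_of_one_lt₀ hlt
    obtain ⟨n, d, hnd⟩ := HeightOneSpectrum.exists_primeCompl_mul_eq_of_integer _ f⁻¹ h1.le
    obtain ⟨hd, hd'⟩ := hd0 d d.2
    have h2 : v.valuation K (algebraMap B K n) < 1 := by
      rw [← hnd, map_mul]
      calc v.valuation K f⁻¹ * v.valuation K (algebraMap B K d)
          ≤ v.valuation K f⁻¹ * 1 := by gcongr; exact v.valuation_le_one _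
        _ < 1 := by rw [mul_one]; exact h1
    rw [HeightOneSpectrum.valuation_lt_one_iff_mem, hP] at h2
    have hn : algebraMap B K n ≠ 0 := by
      rw [← hnd]
      exact mul_ne_zero (inv_ne_zero hf) hd
    rw [h.ge_iff _ _ hn, ← hnd, h.ord_mul _ _ (inv_ne_zero hf) hd, hd', h.ord_inv] at h2
    have := (h.mem_iff _ hf).mp hfO
    omega
  · intro hle
    obtain ⟨n, d, hnd⟩ := HeightOneSpectrum.exists_primeCompl_mul_eq_of_integer _ f hle
    obtain ⟨hd, hd'⟩ := hd0 d d.2
    have hn : algebraMap B K n ≠ 0 := by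
      rw [← hnd]
      exact mul_ne_zero hf hd
    have h2 := (h.mem_iff _ hn).mp (hB n)
    rw [← hnd, h.ord_mul _ _ hf hd, hd', add_zero] at h2
    exact (h.mem_iff _ hf).mpr h2

variable {k M K A B : Type} [Field k] [Field M] [Field K] [Algebra k M] [Algebra k K]
  [Algebra M K] [IsScalarTower k M K]
  [CommRing A] [IsDedekindDomain A] [Algebra A M] [IsFractionRing A M]
  [Algebra A K] [IsScalarTower A M K]
  [CommRing B] [IsDedekindDomain B] [Algebra A B] [Algebra B K] [IsScalarTower A B K]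
  [IsFractionRing B K] [Module.Finite A B]

omit [IsDedekindDomain A] [IsFractionRing A M] in
theorem PL6_key {q : Pl k M} (hqA : ∀ f : M, f ∈ q.O ↔ f ∈ Set.range (algebraMap A M))
    (m : Ideal A) [m.IsMaximal] (hm : ∀ a : A, a ∈ m ↔ q.M (algebraMap A M a)) (hq : q.Laws)
    {p : Pl k K} (h : p.Laws) (hpq : p.O.comap (algebraMap M K) = q.O) :
    ∃ v : HeightOneSpectrum B, v.asIdeal ∈ m.primesOver B ∧
      (∀ f : K, f ∈ p.O ↔ v.valuation K f ≤ 1) ∧
      ((m.ramificationIdx' v.asIdeal * m.inertiaDeg' v.asIdeal : ℕ) : ℤ) =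
        p.ord (algebraMap M K q.z) := by
  have hcomap : ∀ f : M, f ∈ q.O ↔ algebraMap M K f ∈ p.O := by
    intro f
    rw [← hpq]
    exact Iff.rfl
  have hMM : ∀ f : M, q.M f ↔ p.M (algebraMap M K f) := by
    intro f
    unfold Pl.M
    rw [hcomap, hcomap, map_inv₀, map_eq_zero]
  have hA : ∀ a : A, algebraMap A K a ∈ p.O := by
    intro a
    rw [IsScalarTower.algebraMap_apply A M K, ← hcomap, hqA]
    exact ⟨a, rfl⟩
  have hB : ∀ b : B, algebraMap B K b ∈ p.O := by
    intro b
    apply PL6_int p.O hA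
    exact (Algebra.IsIntegral.isIntegral (R := A) b).map (IsScalarTower.toAlgHom A B K)
  have hcoe : ∀ b : B, b ≠ 0 → algebraMap B K b ≠ 0 := fun b hb h0 =>
    hb ((map_eq_zero_iff _ (IsFractionRing.injective B K)).mp h0)
  let P : Ideal B :=
    { carrier := {b | p.Ge 1 (algebraMap B K b)}
      add_mem' := fun {a b} ha hb => by
        change p.Ge 1 (algebraMap B K (a + b))
        rw [map_add]
        exact h.ge_add ha hb
      zero_mem' := by
        change p.Ge 1 (algebraMap B K 0)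
        rw [map_zero]
        exact h.ge_zero 1
      smul_mem' := fun c b hb => by
        change p.Ge 1 (algebraMap B K (c * b))
        rw [map_mul]
        have h1 := h.ge_mul ((h.mem_iff_ge _).mp (hB c)) hb
        rwa [zero_add] at h1 }
  have hPmem : ∀ b : B, b ∈ P ↔ p.Ge 1 (algebraMap B K b) := fun b => Iff.rfl
  have hPprime : P.IsPrime := by
    constructor
    · intro h0
      have h1 : (1 : B) ∈ P := by
        rw [h0]
        trivial
      rw [hPmem, map_one, h.ge_iff _ _ one_ne_zero, h.ord_one] at h1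
      omega
    · intro a b hab
      by_cases ha : a = 0
      · left
        rw [ha]
        exact P.zero_mem
      by_cases hb : b = 0
      · right
        rw [hb]
        exact P.zero_mem
      rw [hPmem, map_mul, h.ge_iff _ _ (mul_ne_zero (hcoe a ha) (hcoe b hb)),
        h.ord_mul _ _ (hcoe a ha) (hcoe b hb)] at hab
      rw [hPmem, hPmem, h.ge_iff _ _ (hcoe a ha), h.ge_iff _ _ (hcoe b hb)]
      have h1 := (h.mem_iff _ (hcoe a ha)).mp (hB a)
      have h2 := (h.mem_iff _ (hcoe b hb)).mp (hB b)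
      omega
  have hover : ∀ a : A, a ∈ m ↔ algebraMap A B a ∈ P := by
    intro a
    rw [hm, hPmem, hMM, h.M_iff_ge, ← IsScalarTower.algebraMap_apply A B K,
      ← IsScalarTower.algebraMap_apply A M K]
  -- the uniformizer
  obtain ⟨a₀, ha₀⟩ : q.z ∈ Set.range (algebraMap A M) := by
    rw [← hqA]
    exact hq.unif.2.1.1
  have ha₀m : a₀ ∈ m := by
    rw [hm, ha₀]
    exact hq.unif.2.1
  have ha₀B : algebraMap B K (algebraMap A B a₀) = algebraMap M K q.z := by
    rw [← IsScalarTower.algebraMap_apply A B K, IsScalarTower.algebraMap_apply A M K, ha₀]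
  have hz0 : algebraMap M K q.z ≠ 0 := by
    rw [Ne, map_eq_zero]
    exact hq.z_ne
  have hP0 : P ≠ ⊥ := by
    intro h0
    have h1 : algebraMap A B a₀ ∈ P := (hover a₀).mp ha₀m
    rw [h0, Ideal.mem_bot] at h1
    rw [h1, map_zero] at ha₀B
    exact hz0 ha₀B.symm
  have hlies : P.LiesOver m := ⟨by
    ext a
    exact hover a⟩
  let v : HeightOneSpectrum B := ⟨P, hPprime, hP0⟩
  have hring : ∀ f : K, f ∈ p.O ↔ v.valuation K f ≤ 1 := PL6_ring h hB v hPmem
  have hord : ∀ f : K, f ≠ 0 → p.ord f = -WithZero.log (v.valuation K f) :=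
    PL6_ord h (v.valuation K) (v.valuation_surjective K) hring
  have hpow : ∀ (b : B) (n : ℕ), b ∈ P ^ n ↔ p.Ge n (algebraMap B K b) := by
    intro b n
    by_cases hb : b = 0
    · rw [hb, map_zero]
      exact ⟨fun _ => h.ge_zero _, fun _ => Ideal.zero_mem _⟩
    · have h1 := hord _ (hcoe b hb)
      have h2 : v.intValuation b ≠ 0 := v.intValuation_ne_zero b hb
      rw [v.valuation_of_algebraMap] at h1
      rw [h.ge_iff _ _ (hcoe b hb), h1, show P = v.asIdeal from rfl,
        ← v.intValuation_le_pow_iff_mem, ← WithZero.log_le_iff_le_exp h2]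
      constructor <;> intro _ <;> omega
  have hord0 : 0 ≤ p.ord (algebraMap M K q.z) := by
    rw [← h.mem_iff _ hz0, ← hcomap]
    exact hq.unif.2.1.1
  obtain ⟨e, he⟩ := Int.eq_ofNat_of_zero_le hord0
  have hram : m.ramificationIdx' P = e := by
    apply Ideal.ramificationIdx'_spec
    · rw [Ideal.map_le_iff_le_comap]
      intro a ha
      rw [Ideal.mem_comap, hpow, ← IsScalarTower.algebraMap_apply A B K,
        IsScalarTower.algebraMap_apply A M K]
      have h1 := hq.unif.2.2 _ ((hm a).mp ha)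
      rw [hcomap, h.mem_iff_ge] at h1
      have h2 := h.ge_mul h1 (Or.inr he.ge : p.Ge (e : ℤ) (algebraMap M K q.z))
      rw [zero_add, ← map_mul, div_mul_cancel₀ _ hq.z_ne] at h2
      exact h2
    · intro hle
      have h1 := (Ideal.map_le_iff_le_comap.mp hle) ha₀m
      rw [Ideal.mem_comap, hpow, ha₀B, h.ge_iff _ _ hz0, he] at h1
      push_cast at h1
      omega
  have hin : m.inertiaDeg' P = 1 := by
    apply PL6_inertia
    intro b
    obtain ⟨c, hc⟩ := h.res_ge _ ((h.mem_iff_ge _).mp (hB b))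
    obtain ⟨a, ha⟩ : algebraMap k M c ∈ Set.range (algebraMap A M) := by
      rw [← hqA]
      exact q.mem c
    refine ⟨a, ?_⟩
    rw [hPmem, map_sub, ← IsScalarTower.algebraMap_apply A B K,
      IsScalarTower.algebraMap_apply A M K, ha, ← IsScalarTower.algebraMap_apply k M K]
    exact hc
  refine ⟨v, ⟨hPprime, hlies⟩, hring, ?_⟩
  change ((m.ramificationIdx' P * m.inertiaDeg' P : ℕ) : ℤ) = _
  rw [hram, hin, mul_one, he]

omit [IsDedekindDomain A] [IsFractionRing A M] [Module.Finite A B] in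
theorem PL6_place {q : Pl k M} (hqA : ∀ f : M, f ∈ q.O ↔ f ∈ Set.range (algebraMap A M))
    (m : Ideal A) (hm : ∀ a : A, a ∈ m ↔ q.M (algebraMap A M a)) (v : HeightOneSpectrum B)
    (hv : v.asIdeal.LiesOver m) :
    ∃ p : Pl k K, (∀ f : K, f ∈ p.O ↔ v.valuation K f ≤ 1) ∧
      p.O.comap (algebraMap M K) = q.O := by
  have hA : ∀ f : M, f ∈ q.O → v.valuation K (algebraMap M K f) ≤ 1 := by
    intro f hf
    obtain ⟨a, rfl⟩ := (hqA f).mp hf
    rw [← IsScalarTower.algebraMap_apply A M K, IsScalarTower.algebraMap_apply A B K]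
    exact v.valuation_le_one _
  have hM : ∀ f : M, q.M f → v.valuation K (algebraMap M K f) < 1 := by
    intro f hf
    obtain ⟨a, rfl⟩ := (hqA f).mp hf.1
    have h1 : algebraMap A B a ∈ v.asIdeal := by
      have h2 := (hm a).mpr hf
      rw [hv.over] at h2
      exact h2
    rw [← IsScalarTower.algebraMap_apply A M K, IsScalarTower.algebraMap_apply A B K]
    exact (v.valuation_lt_one_iff_mem _).mpr h1
  refine ⟨⟨(v.valuation K).valuationSubring, ?_, ?_⟩, fun f => Iff.rfl, ?_⟩
  · intro c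
    rw [Valuation.mem_valuationSubring_iff, IsScalarTower.algebraMap_apply k M K]
    exact hA _ (q.mem c)
  · rw [Ne, Valuation.valuationSubring_eq_top_iff, not_not]
    infer_instance
  · ext f
    rw [ValuationSubring.mem_comap, Valuation.mem_valuationSubring_iff]
    constructor
    · intro hf
      by_contra hfq
      have hf0 : f ≠ 0 := by
        rintro rfl
        exact hfq q.O.zero_mem
      have h1 : f⁻¹ ∈ q.O := (q.O.mem_or_inv_mem f).resolve_left hfq
      have h2 := hM f⁻¹ ⟨h1, Or.inr (by rwa [inv_inv])⟩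
      rw [map_inv₀, map_inv₀] at h2
      have h3 : (0 : WithZero (Multiplicative ℤ)) < v.valuation K (algebraMap M K f) :=
        zero_lt_iff.mpr ((Valuation.ne_zero_iff _).mpr ((map_ne_zero _).mpr hf0))
      exact absurd ((inv_lt_one₀ h3).mp h2) (not_lt.mpr hf)
    · exact hA f

theorem PL6_core {q : Pl k M} (hqA : ∀ f : M, f ∈ q.O ↔ f ∈ Set.range (algebraMap A M))
    (m : Ideal A) [m.IsMaximal] (hm0 : m ≠ ⊥) (hm : ∀ a : A, a ∈ m ↔ q.M (algebraMap A M a))
    (hq : q.Laws) (hp : ∀ p : Pl k K, p.Laws) [Module.IsTorsionFree A B] :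
    {p : Pl k K | p.O.comap (algebraMap M K) = q.O}.Finite ∧
      ∑ᶠ (p : Pl k K) (_ : p.O.comap (algebraMap M K) = q.O), p.ord (algebraMap M K q.z) =
        (Module.finrank M K : ℤ) := by
  classical
  have key : ∀ p : Pl k K, p.O.comap (algebraMap M K) = q.O →
      ∃ v : HeightOneSpectrum B, v.asIdeal ∈ m.primesOver B ∧
      (∀ f : K, f ∈ p.O ↔ v.valuation K f ≤ 1) ∧
      ((m.ramificationIdx' v.asIdeal * m.inertiaDeg' v.asIdeal : ℕ) : ℤ) =
        p.ord (algebraMap M K q.z) := fun p hpq => PL6_key hqA m hm hq (hp p) hpq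
  by_cases hne : ∃ p : Pl k K, p.O.comap (algebraMap M K) = q.O
  swap
  · -- no place: impossible
    exfalso
    obtain ⟨P, hP⟩ := Ideal.exists_maximal_ideal_liesOver_of_isIntegral (S := B) m
    have hP0 : P ≠ ⊥ := by
      have := hP.2
      exact Ideal.ne_bot_of_liesOver_of_ne_bot hm0 P
    obtain ⟨p, -, h2⟩ := PL6_place (K := K) hqA m hm ⟨P, hP.1.isPrime, hP0⟩ hP.2
    exact hne ⟨p, h2⟩
  have hne' : Nonempty (HeightOneSpectrum B) := by
    obtain ⟨p, hp1⟩ := hne
    exact ⟨(key p hp1).choose⟩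
  choose! Φ hΦ using key
  have hinj : Set.InjOn (fun p => (Φ p).asIdeal) {p : Pl k K | p.O.comap (algebraMap M K) = q.O} := by
    intro p hp1 p' hp2 heq
    have h1 : Φ p = Φ p' := HeightOneSpectrum.ext heq
    have h2 : p.O = p'.O := by
      ext f
      rw [(hΦ p hp1).2.1, (hΦ p' hp2).2.1, h1]
    cases p
    cases p'
    simp only at h2
    subst h2
    rfl
  have hmaps : Set.MapsTo (fun p => (Φ p).asIdeal)
      {p : Pl k K | p.O.comap (algebraMap M K) = q.O} (m.primesOver B) := fun p hp1 => (hΦ p hp1).1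
  have hfin : {p : Pl k K | p.O.comap (algebraMap M K) = q.O}.Finite := by
    refine Set.Finite.of_injOn hmaps hinj ?_
    rw [← IsDedekindDomain.coe_primesOverFinset hm0 B]
    exact Finset.finite_toSet _
  refine ⟨hfin, ?_⟩
  rw [show (∑ᶠ (p : Pl k K) (_ : p.O.comap (algebraMap M K) = q.O), p.ord (algebraMap M K q.z)) =
    ∑ᶠ p ∈ {p : Pl k K | p.O.comap (algebraMap M K) = q.O}, p.ord (algebraMap M K q.z) from rfl,
    finsum_mem_eq_finite_toFinset_sum _ hfin, ← Ideal.sum_ramification_inertia B M K hm0]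
  push_cast
  refine Finset.sum_bij (fun p _ => (Φ p).asIdeal) ?_ ?_ ?_ ?_
  · intro p hp1
    rw [IsDedekindDomain.mem_primesOverFinset_iff hm0]
    exact hmaps ((Set.Finite.mem_toFinset hfin).mp hp1)
  · intro p hp1 p' hp2 heq
    exact hinj ((Set.Finite.mem_toFinset hfin).mp hp1) ((Set.Finite.mem_toFinset hfin).mp hp2) heq
  · intro P hP
    rw [IsDedekindDomain.mem_primesOverFinset_iff hm0] at hP
    have hP0 : P ≠ ⊥ := by
      have := hP.2
      exact Ideal.ne_bot_of_liesOver_of_ne_bot hm0 P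
    obtain ⟨p, h1, h2⟩ := PL6_place (K := K) hqA m hm ⟨P, hP.1, hP0⟩ hP.2
    refine ⟨p, (Set.Finite.mem_toFinset hfin).mpr h2, ?_⟩
    have h3 := (hΦ p h2).2.1
    ext b
    have h4 : (Φ p).valuation K (algebraMap B K b) < 1 ↔
        (⟨P, hP.1, hP0⟩ : HeightOneSpectrum B).valuation K (algebraMap B K b) < 1 := by
      by_cases hb : b = 0
      · rw [hb]; simp
      have hb' : algebraMap B K b ≠ 0 := fun h0 =>
        hb ((map_eq_zero_iff _ (IsFractionRing.injective B K)).mp h0)
      have h5 := h3 (algebraMap B K b)⁻¹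
      rw [h1, map_inv₀, map_inv₀, inv_le_one₀ (zero_lt_iff.mpr ((Valuation.ne_zero_iff _).mpr hb')),
        inv_le_one₀ (zero_lt_iff.mpr ((Valuation.ne_zero_iff _).mpr hb'))] at h5
      rw [← not_le, ← not_le, h5]
    rw [HeightOneSpectrum.valuation_lt_one_iff_mem, HeightOneSpectrum.valuation_lt_one_iff_mem] at h4
    exact h4
  · intro p hp1
    have h1 := (hΦ p ((Set.Finite.mem_toFinset hfin).mp hp1)).2.2
    rw [← h1]
    push_cast
    rfl

end core

theorem st_PL6 (h1 : ST_PL1) (h2 : ST_SUBFF) : ST_PL6 := by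
  intro k K _ _ _ _ _ hK M hM q
  have hq : q.Laws := h1 k M hM q
  have hp : ∀ p : Pl k K, p.Laws := h1 k K hK
  obtain ⟨x, hx, -⟩ := id hM
  have hfd : FiniteDimensional M K := by
    refine (h2 k K hK M ⟨(x : K), x.2, ?_⟩).2
    intro halg
    apply hx
    exact (isAlgebraic_algebraMap_iff (algebraMap M K).injective).mp halg
  have hcM : CharZero M := charZero_of_injective_algebraMap (algebraMap k M).injective
  have hdvr : IsDiscreteValuationRing q.O := PL6_dvr hq
  let i1 : Algebra q.O K := ((algebraMap M K).comp (algebraMap q.O M)).toAlgebra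
  have i2 : IsScalarTower q.O M K := IsScalarTower.of_algebraMap_eq fun _ => rfl
  have i3 : IsDedekindDomain (integralClosure q.O K) :=
    integralClosure.isDedekindDomain q.O M K
  have i4 : IsFractionRing (integralClosure q.O K) K :=
    integralClosure.isFractionRing_of_finite_extension (A := q.O) M K
  have i5 : Module.Finite q.O (integralClosure q.O K) :=
    IsIntegralClosure.finite q.O M K (integralClosure q.O K)
  have i6 : Module.IsTorsionFree q.O (integralClosure q.O K) := by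
    rw [Module.isTorsionFree_iff_algebraMap_injective]
    intro a b hab
    have h3 : algebraMap M K (a : M) = algebraMap M K (b : M) :=
      congrArg (fun u : integralClosure q.O K => (u : K)) hab
    exact Subtype.ext ((algebraMap M K).injective h3)
  have hmem : ∀ f : M, f ∈ q.O ↔ f ∈ Set.range (algebraMap q.O M) := by
    intro f
    exact ⟨fun hf => ⟨⟨f, hf⟩, rfl⟩, fun ⟨a, ha⟩ => ha ▸ a.2⟩
  have hm0 : IsLocalRing.maximalIdeal q.O ≠ ⊥ := IsDiscreteValuationRing.not_a_field q.O
  have hm : ∀ a : q.O, a ∈ IsLocalRing.maximalIdeal q.O ↔ q.M (algebraMap q.O M a) := by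
    intro a
    rw [IsLocalRing.mem_maximalIdeal, mem_nonunits_iff]
    have ha : algebraMap q.O M a = (a : M) := rfl
    rw [ha]
    constructor
    · intro hu
      refine ⟨a.2, ?_⟩
      by_cases h0 : (a : M) = 0
      · exact Or.inl h0
      · right
        intro hinv
        exact hu (isUnit_iff_exists_inv.mpr ⟨⟨_, hinv⟩, Subtype.ext (mul_inv_cancel₀ h0)⟩)
    · rintro ⟨-, h0 | h0⟩ hu
      · obtain ⟨b, hb⟩ := isUnit_iff_exists_inv.mp hu
        have hb' : (a : M) * (b : M) = 1 := congrArg Subtype.val hb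
        rw [h0, zero_mul] at hb'
        exact zero_ne_one hb'
      · obtain ⟨b, hb⟩ := isUnit_iff_exists_inv.mp hu
        have hb' : (a : M) * (b : M) = 1 := congrArg Subtype.val hb
        apply h0
        rw [← eq_inv_of_mul_eq_one_right hb']
        exact b.2
  exact PL6_core (B := integralClosure q.O K) hmem (IsLocalRing.maximalIdeal q.O) hm0 hm hq hp

end Pool.Agent.Helper8.SPV
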