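import Pool.Agent.Helper80.SPV.PLC

/-! # Modules PLFT, PL2, PLR -/

set_option autoImplicit false

namespace Pool.Agent.Helper8.SPV

open IsDedekindDomain

/-- `K` is finite over `k(x)` for an `x` in the valuation ring -/
theorem PLFT_exists {k K : Type} [Field k] [Field K] [Algebra k K] (h : IsFF k K) (p : Pl k K) :
    ∃ x : K, x ∈ p.O ∧ Transcendental k x ∧
      FiniteDimensional (IntermediateField.adjoin k {x}) K := by
  obtain ⟨x, hx, hfd⟩ := h
  rcases p.O.mem_or_inv_mem x with h1 | h1
  · exact ⟨x, h1, hx, hfd⟩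
  · have h2 : IntermediateField.adjoin k {x⁻¹} = IntermediateField.adjoin k {x} := by
      apply le_antisymm
      · rw [IntermediateField.adjoin_simple_le_iff]
        exact inv_mem (IntermediateField.mem_adjoin_simple_self k x)
      · rw [IntermediateField.adjoin_simple_le_iff]
        have := inv_mem (IntermediateField.mem_adjoin_simple_self k x⁻¹)
        rwa [inv_inv] at this
    refine ⟨x⁻¹, h1, ?_, ?_⟩
    · intro halg
      apply hx
      have := halg.inv
      rwa [inv_inv] at this
    · rw [h2]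
      exact hfd

open Classical in
theorem PLFT_image {k B K : Type} [Field k] [Field K] [CommRing B] [Algebra k B] [Algebra k K]
    [Algebra B K] [IsScalarTower k B K] (s : Finset B) (hs : Algebra.adjoin k (s : Set B) = ⊤)
    (b : B) :
    algebraMap B K b ∈ Algebra.adjoin k ((s.image (algebraMap B K) : Finset K) : Set K) := by
  have hb : b ∈ Algebra.adjoin k (s : Set B) := by
    rw [hs]
    trivial
  induction hb using Algebra.adjoin_induction with
  | mem y hy =>
    apply Algebra.subset_adjoin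
    rw [Finset.mem_coe]
    exact Finset.mem_image_of_mem _ hy
  | algebraMap r =>
    rw [← IsScalarTower.algebraMap_apply k B K]
    exact Subalgebra.algebraMap_mem _ r
  | add y z _ _ hy hz =>
    rw [map_add]
    exact add_mem hy hz
  | mul y z _ _ hy hz =>
    rw [map_mul]
    exact mul_mem hy hz

theorem st_PLFT : ST_PLFT := by
  intro k K _ _ _ _ _ hK p
  obtain ⟨x, hxO, hx, hfd⟩ := PLFT_exists hK p
  obtain ⟨h1, h2, h3⟩ := PLC.closure (k := k) x
  have hB : ∀ b : PLC.BB k x, algebraMap (PLC.BB k x) K b ∈ p.O := fun b => PLC.BB_mem p hxO b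
  obtain ⟨v, hv1, hv2⟩ := PLC.spec p hB
  obtain ⟨s, hs⟩ := h3.out
  classical
  have hcoe := PLFT_image (k := k) (K := K) s hs
  refine ⟨s.image (algebraMap (PLC.BB k x) K), ?_, ?_⟩
  · intro f hf
    obtain ⟨b, -, rfl⟩ := Finset.mem_image.mp hf
    exact hB b
  · intro f hf
    rw [hv2] at hf
    obtain ⟨n, d, hnd⟩ := HeightOneSpectrum.exists_primeCompl_mul_eq_of_integer _ f hf
    refine ⟨algebraMap (PLC.BB k x) K n, hcoe n, algebraMap (PLC.BB k x) K (d : PLC.BB k x),
      hcoe d, ?_, hnd⟩
    refine (PLC.M_or_U (hB d)).resolve_left fun h4 => d.2 ?_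
    rw [← hv1] at h4
    exact h4

theorem PL2_fin {k K : Type} [Field k] [IsAlgClosed k] [CharZero k] [Field K] [Algebra k K]
    (f : K) (hf : f ≠ 0) [FiniteDimensional (IntermediateField.adjoin k {f}) K] :
    {p : Pl k K | p.M f}.Finite := by
  obtain ⟨h1, h2, h3⟩ := PLC.closure (k := k) f
  have key : ∀ p : Pl k K, p.M f → ∃ v : HeightOneSpectrum (PLC.BB k f),
      (∀ b : PLC.BB k f, b ∈ v.asIdeal ↔ p.M (algebraMap (PLC.BB k f) K b)) ∧
      ∀ u : K, u ∈ p.O ↔ v.valuation K u ≤ 1 := fun p hp =>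
    PLC.spec p fun b => PLC.BB_mem p hp.1 b
  by_cases hne : ∃ p : Pl k K, p.M f
  swap
  · have : {p : Pl k K | p.M f} = ∅ := by
      ext p
      simp only [Set.mem_ofPred_eq, Set.mem_empty_iff_false, iff_false]
      intro hp
      exact hne ⟨p, hp⟩
    rw [this]
    exact Set.finite_empty
  have hne' : Nonempty (HeightOneSpectrum (PLC.BB k f)) := by
    obtain ⟨p, hp⟩ := hne
    exact ⟨(key p hp).choose⟩
  choose! Φ hΦ using key
  let y : PLC.BB k f := algebraMap (PLC.AA k f) (PLC.BB k f)
    ⟨f, Algebra.self_mem_adjoin_singleton k f⟩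
  have hy : algebraMap (PLC.BB k f) K y = f := rfl
  have hy0 : y ≠ 0 := by
    intro h0
    rw [h0, map_zero] at hy
    exact hf hy.symm
  have hfin : {v : HeightOneSpectrum (PLC.BB k f) | v.asIdeal ∣ Ideal.span {y}}.Finite := by
    apply Ideal.finite_factors
    rw [Ne, Ideal.zero_eq_bot, Ideal.span_singleton_eq_bot]
    exact hy0
  refine Set.Finite.of_injOn (f := Φ) ?_ ?_ hfin
  · intro p hp
    change (Φ p).asIdeal ∣ Ideal.span {y}
    rw [Ideal.dvd_span_singleton, (hΦ p hp).1, hy]
    exact hp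
  · intro p hp q hq hpq
    apply PLC.ext
    ext u
    rw [(hΦ p hp).2, (hΦ q hq).2, hpq]

theorem st_PL2 (h1 : ST_PL1) (h2 : ST_FFT) : ST_PL2 := by
  intro k K _ _ _ _ _ hK f hf
  by_cases halg : IsAlgebraic k f
  · obtain ⟨c, hc⟩ : ∃ c : k, algebraMap k K c = f := by
      obtain ⟨c, hc⟩ := (IsAlgClosed.algebraMap_bijective_of_isIntegral (k := k)
        (K := integralClosure k K)).2 ⟨f, halg.isIntegral⟩
      exact ⟨c, congrArg Subtype.val hc⟩
    have : {p : Pl k K | p.ord f ≠ 0} = ∅ := by
      ext p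
      simp only [Set.mem_ofPred_eq, Set.mem_empty_iff_false, iff_false, not_not]
      rw [← hc]
      exact (h1 k K hK p).ord_const c
    rw [this]
    exact Set.finite_empty
  · have hf1 : FiniteDimensional (IntermediateField.adjoin k {f}) K := h2 k K hK f halg
    have hf2 : FiniteDimensional (IntermediateField.adjoin k {f⁻¹}) K := by
      apply h2 k K hK f⁻¹
      intro h3
      apply halg
      have := h3.inv
      rwa [inv_inv] at this
    refine ((PL2_fin (k := k) f hf).union (PL2_fin (k := k) f⁻¹ (inv_ne_zero hf))).subset ?_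
    intro p hp
    have hL := h1 k K hK p
    have hp' : p.ord f ≠ 0 := hp
    rcases lt_or_gt_of_ne hp' with h3 | h3
    · right
      change p.M f⁻¹
      rw [hL.M_iff_ge, hL.ge_iff _ _ (inv_ne_zero hf), hL.ord_inv]
      omega
    · left
      change p.M f
      rw [hL.M_iff_ge, hL.ge_iff _ _ hf]
      omega

theorem st_PLR (h1 : ST_PL1) (h2 : ST_SUBFF) : ST_PLR := by
  intro k K _ _ _ _ _ hK M hM p
  have hp : p.Laws := h1 k K hK p
  obtain ⟨x, hx, -⟩ := id hM
  have hfd : FiniteDimensional M K := by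
    refine (h2 k K hK M ⟨(x : K), x.2, ?_⟩).2
    intro halg
    apply hx
    exact (isAlgebraic_algebraMap_iff (algebraMap M K).injective).mp halg
  let q : Pl k M :=
    { O := p.O.comap (algebraMap M K)
      mem := fun c => p.mem c
      ne := by
        intro htop
        apply p.ne
        rw [eq_top_iff]
        intro f _
        refine PLC.mem_int p.O (R := M) (fun a => ?_) (Algebra.IsIntegral.isIntegral f)
        have ha : a ∈ p.O.comap (algebraMap M K) := by
          rw [htop]
          trivial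
        exact ha }
  have hqO : ∀ f : M, f ∈ q.O ↔ (f : K) ∈ p.O := fun f => Iff.rfl
  have hq : q.Laws := h1 k M hM q
  have hz0 : ((q.z : M) : K) ≠ 0 := fun h0 => hq.z_ne (Subtype.ext h0)
  have hU : ∀ f : M, q.U f → p.ord (f : K) = 0 := by
    intro f hf
    have h3 : p.U (f : K) := ⟨fun h0 => hf.1 (Subtype.ext h0), hf.2.1, hf.2.2⟩
    exact ((hp.U_iff _).mp h3).2
  refine ⟨q, rfl, ?_, ?_⟩
  · have h3 := hq.unif.2.1
    have h4 : p.M ((q.z : M) : K) := by
      refine ⟨h3.1, ?_⟩
      rcases h3.2 with h5 | h5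
      · exact absurd h5 hq.z_ne
      · exact Or.inr h5
    rw [hp.M_iff_ge, hp.ge_iff _ _ hz0] at h4
    exact h4
  · intro f
    by_cases hf : f = 0
    · rw [hf, Pl.ord_zero, mul_zero]
      change p.ord ((0 : M) : K) = 0
      rw [ZeroMemClass.coe_zero, Pl.ord_zero]
    · have hf0 : (f : K) ≠ 0 := fun h0 => hf (Subtype.ext h0)
      have h3 : q.U (f * q.z ^ (-q.ord f)) := by
        rw [hq.U_iff]
        refine ⟨mul_ne_zero hf (zpow_ne_zero _ hq.z_ne), ?_⟩
        rw [hq.ord_mul _ _ hf (zpow_ne_zero _ hq.z_ne), hq.ord_zpow, hq.ord_z]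
        ring
      have h4 := hU _ h3
      have h5 : ((f * q.z ^ (-q.ord f) : M) : K) = (f : K) * ((q.z : M) : K) ^ (-q.ord f) := by
        push_cast
        rfl
      rw [h5, hp.ord_mul _ _ hf0 (zpow_ne_zero _ hz0), hp.ord_zpow] at h4
      linarith

end Pool.Agent.Helper8.SPV
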