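import Pool.Agent.Helper80.SPV.PLFT

/-! # Module PL7: a derivation is regular with unit values on uniformizers at almost all places -/

set_option autoImplicit false

namespace Pool.Agent.Helper8.SPV

open IsDedekindDomain

theorem PL7_adjoin {k K : Type} [Field k] [Field K] [Algebra k K] (p : Pl k K)
    (δ : Derivation k K K) (T : Set K) (hT : ∀ t ∈ T, t ∈ p.O) (hδ : ∀ t ∈ T, δ t ∈ p.O) (f : K)
    (hf : f ∈ Algebra.adjoin k T) : δ f ∈ p.O := by
  induction hf using Algebra.adjoin_induction with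
  | mem y hy => exact hδ y hy
  | algebraMap r =>
    rw [Derivation.map_algebraMap]
    exact p.O.zero_mem
  | add y z _ _ hy hz =>
    rw [map_add]
    exact p.O.add_mem _ _ hy hz
  | mul y z hy0 hz0 hy hz =>
    rw [Derivation.leibniz, smul_eq_mul, smul_eq_mul]
    exact p.O.add_mem _ _ (p.O.mul_mem _ _ (PLC.adjoin_mem p.O p.mem hT hy0) hz)
      (p.O.mul_mem _ _ (PLC.adjoin_mem p.O p.mem hT hz0) hy)

/-- at a place whose valuation ring is preserved by `δ`, where `δ x = 1` for an `x` in the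
valuation ring, `δ z` is a unit -/
theorem PL7_unit {k K : Type} [Field k] [CharZero k] [Field K] [Algebra k K] {p : Pl k K}
    (h : p.Laws) (δ : Derivation k K K) (hδ : ∀ f ∈ p.O, δ f ∈ p.O) (x : K) (hx : x ∈ p.O)
    (hx1 : δ x = 1) : δ p.z ≠ 0 ∧ p.ord (δ p.z) = 0 := by
  obtain ⟨c, hc⟩ := h.res x hx
  have hδ' : ∀ f, p.Ge 0 f → p.Ge 0 (δ f) := fun f hf => by
    rw [← h.mem_iff_ge] at hf ⊢
    exact hδ f hf
  obtain ⟨w, hw⟩ : ∃ w, w = x - algebraMap k K c := ⟨_, rfl⟩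
  rw [← hw] at hc
  have hδw : δ w = 1 := by
    rw [hw, map_sub, hx1, Derivation.map_algebraMap, sub_zero]
  have hw0 : w ≠ 0 := by
    rintro h0
    rw [h0, map_zero] at hδw
    exact zero_ne_one hδw
  rw [h.M_iff_ge, h.ge_iff _ _ hw0] at hc
  obtain ⟨n, hn⟩ : ∃ n : ℕ, p.ord w = n + 1 := ⟨(p.ord w - 1).toNat, by omega⟩
  have hz := h.z_ne
  obtain ⟨u, hu⟩ : ∃ u, u = w * p.z ^ (-(((n + 1 : ℕ)) : ℤ)) := ⟨_, rfl⟩
  have hu0 : u ≠ 0 := by
    rw [hu]
    exact mul_ne_zero hw0 (zpow_ne_zero _ hz)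
  have hordu : p.ord u = 0 := by
    rw [hu, h.ord_mul _ _ hw0 (zpow_ne_zero _ hz), h.ord_zpow, h.ord_z, hn]
    push_cast
    ring
  have hwu : w = u * p.z ^ (n + 1) := by
    rw [hu, zpow_neg, zpow_natCast, mul_assoc, inv_mul_cancel₀ (pow_ne_zero _ hz), mul_one]
  have huge : p.Ge 0 u := Or.inr hordu.ge
  have hzge : p.Ge 1 p.z := Or.inr h.ord_z.ge
  have hzge0 : p.Ge 0 p.z := h.ge_mono hzge (by norm_num)
  have hδu := hδ' u huge
  have hδz := hδ' p.z hzge0
  have hkey : u * (((n + 1 : ℕ) : K) * p.z ^ n * δ p.z) + p.z ^ (n + 1) * δ u = 1 := by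
    rw [← hδw, hwu, Derivation.leibniz, Derivation.leibniz_pow, smul_eq_mul, smul_eq_mul,
      nsmul_eq_mul, smul_eq_mul, Nat.add_sub_cancel]
    ring
  have hzpow : ∀ m : ℕ, p.Ge m (p.z ^ m) := by
    intro m
    rw [h.ge_iff _ _ (pow_ne_zero _ hz), h.ord_pow, h.ord_z, mul_one]
  rcases Nat.eq_zero_or_pos n with h0 | hpos
  · subst h0
    have h1 : u * δ p.z = 1 + -(p.z * δ u) := by
      have h2 : u * δ p.z + p.z * δ u = 1 := by
        rw [← hkey]
        simp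
      linear_combination h2
    have h3 : p.Ge 1 (-(p.z * δ u)) := by
      have := h.ge_neg (h.ge_mul hzge hδu)
      rwa [add_zero] at this
    have h4 := h.ord_add_of_lt 1 (-(p.z * δ u)) one_ne_zero (by
      rcases h3 with h3 | h3
      · exact Or.inl h3
      · right
        rw [h.ord_one]
        omega)
    rw [← h1, h.ord_one] at h4
    obtain ⟨h5, h6⟩ := h4
    have h7 : δ p.z ≠ 0 := right_ne_zero_of_mul h5
    rw [h.ord_mul _ _ hu0 h7, hordu, zero_add] at h6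
    exact ⟨h7, h6⟩
  · exfalso
    have h1 : p.Ge 1 (1 : K) := by
      rw [← hkey]
      apply h.ge_add
      · have h2 : p.Ge 0 (((n + 1 : ℕ) : K)) := by
          right
          rw [h.ord_natCast]
        have h3 := h.ge_mul huge (h.ge_mul (h.ge_mul h2 (hzpow n)) hδz)
        exact h.ge_mono h3 (by omega)
      · have h3 := h.ge_mul (hzpow (n + 1)) hδu
        refine h.ge_mono h3 ?_
        push_cast
        omega
    rw [h.ge_iff _ _ one_ne_zero, h.ord_one] at h1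
    omega

theorem st_PL7 (h1 : ST_PL1) (h2 : ST_PL2) (h3 : ST_DER1) : ST_PL7 := by
  intro k K _ _ _ _ _ hK δ hδ
  classical
  obtain ⟨x, hx, hfd⟩ := id hK
  obtain ⟨hB1, hB2, hB3⟩ := PLC.closure (k := k) x
  have hx0 : x ≠ 0 := by
    rintro rfl
    exact hx isAlgebraic_zero
  have hδx : δ x ≠ 0 := by
    intro h0
    obtain ⟨c, hc⟩ := (h3 k K hK).1 δ hδ x h0
    apply hx
    rw [hc]
    exact isAlgebraic_algebraMap c
  obtain ⟨s, hs⟩ := hB3.out
  have himg := PLFT_image (k := k) (K := K) s hs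
  obtain ⟨T, hT⟩ : ∃ T : Finset K, T = s.image (algebraMap (PLC.BB k x) K) := ⟨_, rfl⟩
  have himg' : ∀ b : PLC.BB k x, algebraMap (PLC.BB k x) K b ∈ Algebra.adjoin k (T : Set K) := by
    intro b
    rw [hT]
    exact himg b
  let δ₀ : Derivation k K K := (δ x)⁻¹ • δ
  have hδ₀ : ∀ f, δ₀ f = (δ x)⁻¹ * δ f := fun f => rfl
  have hδ₀' : ∀ f, δ f = δ x * δ₀ f := by
    intro f
    rw [hδ₀, ← mul_assoc, mul_inv_cancel₀ hδx, one_mul]
  have hfinT : ∀ t ∈ T, {p : Pl k K | p.ord (δ₀ t) ≠ 0}.Finite := by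
    intro t _
    by_cases h0 : δ₀ t = 0
    · have : {p : Pl k K | p.ord (δ₀ t) ≠ 0} = ∅ := by
        ext p
        simp only [Set.mem_ofPred_eq, Set.mem_empty_iff_false, iff_false, not_not]
        rw [h0]
        exact Pl.ord_zero
      rw [this]
      exact Set.finite_empty
    · exact h2 k K hK _ h0
  have hbad : ({p : Pl k K | p.ord x ≠ 0} ∪ {p : Pl k K | p.ord (δ x) ≠ 0} ∪
      ⋃ t ∈ T, {p : Pl k K | p.ord (δ₀ t) ≠ 0}).Finite :=
    ((h2 k K hK x hx0).union (h2 k K hK _ hδx)).union (Set.Finite.biUnion T.finite_toSet hfinT)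
  refine hbad.subset ?_
  intro p hp
  by_contra hcon
  apply hp
  simp only [Set.mem_union, Set.mem_iUnion, Set.mem_ofPred_eq, not_or, not_exists, not_not]
    at hcon
  obtain ⟨⟨hpx, hpδ⟩, hpT⟩ := hcon
  have hL := h1 k K hK p
  have hxO : x ∈ p.O := (hL.mem_iff _ hx0).mpr hpx.ge
  have hBO : ∀ b : PLC.BB k x, algebraMap (PLC.BB k x) K b ∈ p.O := fun b => PLC.BB_mem p hxO b
  have hTO : ∀ t ∈ (T : Set K), t ∈ p.O := by
    intro t ht
    rw [hT, Finset.mem_coe] at ht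
    obtain ⟨b, -, rfl⟩ := Finset.mem_image.mp ht
    exact hBO b
  have hδTO : ∀ t ∈ (T : Set K), δ₀ t ∈ p.O := by
    intro t ht
    have h4 := hpT t ht
    by_cases h0 : δ₀ t = 0
    · rw [h0]
      exact p.O.zero_mem
    · rw [hL.mem_iff _ h0, h4]
  have hadj := PL7_adjoin p δ₀ (T : Set K) hTO hδTO
  obtain ⟨v, hv1, hv2⟩ := PLC.spec p hBO
  have hpres : ∀ f ∈ p.O, δ₀ f ∈ p.O := by
    intro f hf
    have hf' := (hv2 f).mp hf
    obtain ⟨n, d, hnd⟩ := HeightOneSpectrum.exists_primeCompl_mul_eq_of_integer _ f hf'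
    have hd : p.U (algebraMap (PLC.BB k x) K (d : PLC.BB k x)) := by
      refine (PLC.M_or_U (hBO d)).resolve_left fun h4 => d.2 ?_
      rw [← hv1] at h4
      exact h4
    have h5 : δ₀ f = (δ₀ (algebraMap (PLC.BB k x) K n) -
        f * δ₀ (algebraMap (PLC.BB k x) K (d : PLC.BB k x))) *
          (algebraMap (PLC.BB k x) K (d : PLC.BB k x))⁻¹ := by
      rw [eq_mul_inv_iff_mul_eq₀ hd.1, ← hnd, Derivation.leibniz, smul_eq_mul, smul_eq_mul]
      ring
    rw [h5]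
    exact p.O.mul_mem _ _ (sub_mem (hadj _ (himg' n)) (p.O.mul_mem _ _ hf (hadj _ (himg' d))))
      hd.2.2
  have hδx1 : δ₀ x = 1 := by
    rw [hδ₀, inv_mul_cancel₀ hδx]
  obtain ⟨h4, h5⟩ := PL7_unit hL δ₀ hpres x hxO hδx1
  unfold Pl.rr
  rw [hδ₀', hL.ord_mul _ _ hδx h4, h5, hpδ]
  norm_num

end Pool.Agent.Helper8.SPV
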