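import Pool.Agent.Helper8.SPV.Stmts
import Pool.Agent.Helper8.SPV.PLib

/-! # Places and integral closures (common lemmas) -/

set_option autoImplicit false

namespace Pool.Agent.Helper8.SPV

open IsDedekindDomain

namespace PLC

theorem mem_int {K : Type} [Field K] {R : Type} [CommRing R] [Algebra R K] (V : ValuationSubring K)
    (hV : ∀ r : R, algebraMap R K r ∈ V) {u : K} (hu : IsIntegral R u) : u ∈ V := by
  obtain ⟨p, hp, hpu⟩ := hu
  let g : R →+* V := (algebraMap R K).codRestrict V hV
  have h1 : IsIntegral V u := by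
    refine ⟨p.map g, hp.map g, ?_⟩
    rw [Polynomial.eval₂_map]
    exact hpu
  obtain ⟨v, hv⟩ := IsIntegrallyClosed.isIntegral_iff.mp h1
  rw [← hv]
  exact v.2

section closure

variable {k K : Type} [Field k] [Field K] [Algebra k K]

/-- `k[y]` -/
abbrev AA (k : Type) {K : Type} [Field k] [Field K] [Algebra k K] (y : K) : Subalgebra k K :=
  Algebra.adjoin k {y}

/-- the integral closure of `k[y]` -/
abbrev BB (k : Type) {K : Type} [Field k] [Field K] [Algebra k K] (y : K) :
    Subalgebra (AA k y) K := integralClosure (AA k y) K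

theorem isPrincipal (y : K) : IsPrincipalIdealRing (AA k y) := by
  let φ : Polynomial k →+* AA k y :=
    (Polynomial.aeval y : Polynomial k →ₐ[k] K).toRingHom.codRestrict (AA k y) fun p => by
      change Polynomial.aeval y p ∈ Algebra.adjoin k {y}
      rw [Algebra.adjoin_singleton_eq_range_aeval]
      exact ⟨p, rfl⟩
  refine IsPrincipalIdealRing.of_surjective φ ?_
  rintro ⟨a, ha⟩
  have ha' : a ∈ Algebra.adjoin k {y} := ha
  rw [Algebra.adjoin_singleton_eq_range_aeval] at ha'
  obtain ⟨p, hp⟩ := ha'
  exact ⟨p, Subtype.ext hp⟩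

open scoped IntermediateField.algebraAdjoinAdjoin in
theorem closure [CharZero k] (y : K)
    [FiniteDimensional (IntermediateField.adjoin k {y}) K] :
    IsDedekindDomain (BB k y) ∧ IsFractionRing (BB k y) K ∧
      Algebra.FiniteType k (BB k y) := by
  have h1 := isPrincipal (k := k) y
  have h0 : CharZero (IntermediateField.adjoin k {y}) :=
    charZero_of_injective_algebraMap (algebraMap k _).injective
  refine ⟨integralClosure.isDedekindDomain (AA k y) (IntermediateField.adjoin k {y}) K,
    integralClosure.isFractionRing_of_finite_extension (A := AA k y)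
      (IntermediateField.adjoin k {y}) K, ?_⟩
  have h5 : Module.Finite (AA k y) (BB k y) :=
    IsIntegralClosure.finite (AA k y) (IntermediateField.adjoin k {y}) K (BB k y)
  have h6 : Algebra.FiniteType k (AA k y) := by
    rw [← Subalgebra.fg_iff_finiteType]
    exact ⟨{y}, by simp⟩
  have h7 : Algebra.FiniteType (AA k y) (BB k y) := inferInstance
  exact Algebra.FiniteType.trans h6 h7

theorem adjoin_mem (V : ValuationSubring K) (hV : ∀ c : k, algebraMap k K c ∈ V) {S : Set K}
    (hz : ∀ z ∈ S, z ∈ V) {u : K} (hu : u ∈ Algebra.adjoin k S) : u ∈ V := by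
  let V' : Subalgebra k K := { V.toSubring with algebraMap_mem' := hV }
  have : Algebra.adjoin k S ≤ V' := Algebra.adjoin_le fun w hw => hz w hw
  exact this hu

/-- the integral closure of `k[y]` is contained in all valuation rings of places regular
at `y` -/
theorem BB_mem (p : Pl k K) {y : K} (hy : y ∈ p.O) (b : BB k y) : (b : K) ∈ p.O := by
  refine mem_int p.O (R := AA k y) (fun a => ?_) b.2
  exact adjoin_mem p.O p.mem (S := {y}) (fun z hz => by
    rw [Set.mem_singleton_iff] at hz
    rw [hz]
    exact hy) a.2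

end closure

/-! ## Units and the maximal ideal, without the laws -/

section units

variable {k K : Type} [Field k] [Field K] [Algebra k K] {p : Pl k K}

theorem M_or_U {f : K} (hf : f ∈ p.O) : p.M f ∨ p.U f := by
  by_cases h0 : f = 0
  · exact Or.inl ⟨hf, Or.inl h0⟩
  · by_cases h1 : f⁻¹ ∈ p.O
    · exact Or.inr ⟨h0, hf, h1⟩
    · exact Or.inl ⟨hf, Or.inr h1⟩

theorem not_M_of_U {f : K} (hf : p.U f) : ¬ p.M f := by
  rintro ⟨-, h | h⟩
  · exact hf.1 h
  · exact h hf.2.2

theorem M_zero : p.M 0 := ⟨p.O.zero_mem, Or.inl rfl⟩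

theorem M_mul {f g : K} (hf : f ∈ p.O) (hg : p.M g) : p.M (f * g) := by
  refine ⟨p.O.mul_mem _ _ hf hg.1, ?_⟩
  by_cases h0 : f * g = 0
  · exact Or.inl h0
  · right
    intro h1
    have hf0 : f ≠ 0 := left_ne_zero_of_mul h0
    have hg0 : g ≠ 0 := right_ne_zero_of_mul h0
    rcases hg.2 with h2 | h2
    · exact hg0 h2
    · apply h2
      have h3 := p.O.mul_mem _ _ hf h1
      have h4 : f * (f * g)⁻¹ = g⁻¹ := by
        field_simp
      rwa [h4] at h3

theorem M_add {f g : K} (hf : p.M f) (hg : p.M g) : p.M (f + g) := by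
  by_cases hf0 : f = 0
  · rwa [hf0, zero_add]
  by_cases hg0 : g = 0
  · rwa [hg0, add_zero]
  rcases p.O.mem_or_inv_mem (f / g) with h | h
  · have h1 : f + g = (f / g + 1) * g := by field_simp
    rw [h1]
    exact M_mul (p.O.add_mem _ _ h p.O.one_mem) hg
  · have h1 : f + g = ((f / g)⁻¹ + 1) * f := by field_simp; ring
    rw [h1]
    exact M_mul (p.O.add_mem _ _ h p.O.one_mem) hf

theorem U_one : p.U 1 := ⟨one_ne_zero, p.O.one_mem, by rw [inv_one]; exact p.O.one_mem⟩

theorem U_mul {f g : K} (hf : p.U f) (hg : p.U g) : p.U (f * g) :=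
  ⟨mul_ne_zero hf.1 hg.1, p.O.mul_mem _ _ hf.2.1 hg.2.1, by
    rw [mul_inv]
    exact p.O.mul_mem _ _ hf.2.2 hg.2.2⟩

/-- a place which contains a Dedekind domain with fraction field `K` is the localization at a
prime -/
theorem spec {B : Type} [CommRing B] [IsDedekindDomain B] [Algebra B K] [IsFractionRing B K]
    (p : Pl k K) (hB : ∀ b : B, algebraMap B K b ∈ p.O) :
    ∃ v : HeightOneSpectrum B, (∀ b : B, b ∈ v.asIdeal ↔ p.M (algebraMap B K b)) ∧
      ∀ f : K, f ∈ p.O ↔ v.valuation K f ≤ 1 := by
  let P : Ideal B :=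
    { carrier := {b | p.M (algebraMap B K b)}
      add_mem' := fun {a b} ha hb => by
        change p.M (algebraMap B K (a + b))
        rw [map_add]
        exact M_add ha hb
      zero_mem' := by
        change p.M (algebraMap B K 0)
        rw [map_zero]
        exact M_zero
      smul_mem' := fun c b hb => by
        change p.M (algebraMap B K (c * b))
        rw [map_mul]
        exact M_mul (hB c) hb }
  have hPmem : ∀ b : B, b ∈ P ↔ p.M (algebraMap B K b) := fun b => Iff.rfl
  have hPprime : P.IsPrime := by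
    constructor
    · intro h0
      have h1 : (1 : B) ∈ P := by
        rw [h0]
        trivial
      rw [hPmem, map_one] at h1
      exact not_M_of_U U_one h1
    · intro a b hab
      rw [hPmem, map_mul] at hab
      rw [hPmem, hPmem]
      rcases M_or_U (hB a) with h1 | h1
      · exact Or.inl h1
      rcases M_or_U (hB b) with h2 | h2
      · exact Or.inr h2
      exact absurd hab (not_M_of_U (U_mul h1 h2))
  have hP0 : P ≠ ⊥ := by
    intro h0
    apply p.ne
    rw [eq_top_iff]
    intro f _
    obtain ⟨n, d, hd, rfl⟩ := IsFractionRing.div_surjective (A := B) f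
    have hd0 : d ≠ 0 := nonZeroDivisors.ne_zero hd
    have hd1 : d ∉ P := by
      rw [h0, Ideal.mem_bot]
      exact hd0
    rw [hPmem] at hd1
    have hd2 := (M_or_U (hB d)).resolve_left hd1
    rw [div_eq_mul_inv]
    exact p.O.mul_mem _ _ (hB n) hd2.2.2
  refine ⟨⟨P, hPprime, hP0⟩, hPmem, ?_⟩
  have hU : ∀ d : B, d ∉ P → p.U (algebraMap B K d) := fun d hd =>
    (M_or_U (hB d)).resolve_left hd
  intro f
  constructor
  · intro hfO
    by_contra hlt
    rw [not_le] at hlt
    have hf : f ≠ 0 := by
      rintro rfl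
      rw [map_zero] at hlt
      exact not_lt_bot hlt
    have h1 : (⟨P, hPprime, hP0⟩ : HeightOneSpectrum B).valuation K f⁻¹ < 1 := by
      rw [map_inv₀]
      exact inv_lt_one_of_one_lt₀ hlt
    obtain ⟨n, d, hnd⟩ := HeightOneSpectrum.exists_primeCompl_mul_eq_of_integer _ f⁻¹ h1.le
    have hd := hU d d.2
    have h2 : (⟨P, hPprime, hP0⟩ : HeightOneSpectrum B).valuation K (algebraMap B K n) < 1 := by
      rw [← hnd, map_mul]
      calc _ ≤ (⟨P, hPprime, hP0⟩ : HeightOneSpectrum B).valuation K f⁻¹ * 1 := by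
            gcongr
            exact HeightOneSpectrum.valuation_le_one _ _
        _ < 1 := by rw [mul_one]; exact h1
    rw [HeightOneSpectrum.valuation_lt_one_iff_mem] at h2
    have h3 : p.M (algebraMap B K n) := h2
    have h4 : algebraMap B K (d : B) = f * algebraMap B K n := by
      rw [← hnd, ← mul_assoc, mul_inv_cancel₀ hf, one_mul]
    have h5 := M_mul hfO h3
    rw [← h4] at h5
    exact not_M_of_U hd h5
  · intro hle
    obtain ⟨n, d, hnd⟩ := HeightOneSpectrum.exists_primeCompl_mul_eq_of_integer _ f hle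
    have hd := hU d d.2
    have h4 : f = algebraMap B K n * (algebraMap B K (d : B))⁻¹ := by
      rw [← hnd, mul_assoc, mul_inv_cancel₀ hd.1, mul_one]
    rw [h4]
    exact p.O.mul_mem _ _ (hB n) hd.2.2

theorem ext {p q : Pl k K} (h : p.O = q.O) : p = q := by
  cases p
  cases q
  simp only at h
  subst h
  rfl

end units

end PLC

end Pool.Agent.Helper8.SPV
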